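import Pool.Agent.H596R2.D3.Final

/-!
# Circuits of depth three for `k`-CNF-SAT

For every `k ≥ 3` all circuits of depth three (unbounded fan-in, free negations, either type of
output gate) which decide the satisfiability of `k`-CNF formulas on `n` variables have size at least
`2 ^ (c n ^ (k / (k + 1)))` for large `n`; for 3-CNF formulas this is `2 ^ (c n ^ (3 / 4))`.
(Parity of `O(n)` bits only gives `2 ^ (c n ^ (1 / 2))`.)

This is the theorem `main_all` of the starting helper file `Pool/Agent/H596R2/D3/Final.lean`, of
which only the case of circuits with an AND output gate and `k = 3` had been handed in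
(`AndOutput`).

The proof for OR output gates: the formulas consist of `a = n ^ (k / (k + 1))` groups; in each group
one of `v ^ k` combinations has to be allowed, where `k` blocks of `v` variables and two alternative
clauses for every combination are used; a random choice of the present alternatives kills all
clauses of the circuit with many relevant literals, and then the number of minimal satisfiable
changes that a CNF can accept is counted.
-/

set_option autoImplicit false

namespace Pool.Agent.Results.MP_b53add_lc.DepthThree

open Pool.Agent.H596R2.D3

theorem result : ∀ k : ℕ, 3 ≤ k → ∃ c : ℝ, 0 < c ∧ ∃ n0 : ℕ, ∀ n ≥ n0,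
    ∀ C : Circuit (Clause n k) 3, C.Decides →
      (2 : ℝ) ^ (c * (n : ℝ) ^ ((k : ℝ) / (k + 1))) ≤ C.size :=
  fun _ hk => main_all hk

end Pool.Agent.Results.MP_b53add_lc.DepthThree
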